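import Mathlib
import Pool.Agent.H12.Unital28b

set_option autoImplicit false

namespace Pool.Agent.Results.MP_e444a1_co.Unital

open scoped Classical Matroid
open Pool.Agent.H12.Tang Pool.Agent.H12.Unital28

/-- Some tangential 1-block over a field of odd order q has neither U_{2,q+1} nor M(K_4) as a minor. -/
theorem result :
    ¬ ∀ (F : Type) [Field F] [Fintype F], Odd (Fintype.card F) →
      ∀ (α : Type) [Fintype α] (M : Matroid α), Rep F M → Simple M →
        chi M (Fintype.card F) = 0 →
        (∀ N : Matroid α, N <m M → Simple N → chi N (Fintype.card F) ≠ 0) →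
        ∃ N : Matroid α, N ≤m M ∧ (IsLine (Fintype.card F + 1) N ∨ IsK4 N) := by
  intro h
  obtain ⟨N, ⟨C, D, rfl⟩, h1⟩ := @h F9 (@QuadraticAlgebra.instField _ _ _ _ fact9) fin9
    (by rw [card9]; decide) (Fin 28) _ M ⟨3, v, hv⟩ simple chi_zero chi_minor
  rw [card9] at h1
  exact h1.elim (no_line C D) (no_K4 C D)

end Pool.Agent.Results.MP_e444a1_co.Unital
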